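import Mathlib
import Pool.Agent.H560.SQ.FinalC

/-!
# The polynomials without small prime factors and with a prescribed parity of the number of prime
factors in every interval around every square: asymptotic formula, `q` even
-/

set_option autoImplicit false

namespace Pool.Agent.Results.MP_a8fbd7_nt.ParityAsymptoticsAtSquares

open Polynomial

/-- The number of irreducible factors of `f`, with multiplicity. -/
noncomputable def numFactors {K : Type} [Field K] (f : K[X]) : ℕ :=
  Multiset.card (UniqueFactorizationMonoid.factors f)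

/-- The squarefree `f` with `deg (f - A²) < h` all of whose irreducible factors have degree `> y`. -/
def Rough {K : Type} [Field K] (A : K[X]) (h : ℕ) (y : ℝ) : Set K[X] :=
  {f : K[X] | (f - A ^ 2).degree < (h : WithBot ℕ) ∧ Squarefree f ∧
    ∀ P : K[X], Irreducible P → P ∣ f → y < (P.natDegree : ℝ)}

/-- Mertens' product: the product of `1 - q ^ (- deg P)` over the monic irreducible `P` of degree at
most `y`. -/
noncomputable def V (K : Type) [Field K] [Fintype K] (y : ℝ) : ℝ :=
  ∏ᶠ P ∈ {P : K[X] | P.Monic ∧ Irreducible P ∧ (P.natDegree : ℝ) ≤ y},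
    (1 - 1 / (Fintype.card K : ℝ) ^ P.natDegree)

/-- Let `K` be a finite field with an even number `q` of elements and let `ε > 0`. There is `κ₀ > 0`
such that for all `0 < κ ≤ κ₀`, all `h ≥ h₀(κ)` and ALL monic `A` with `h ≤ 2 deg A`: among the
`q ^ h` polynomials `f` with `deg (f - A²) < h` the number of the squarefree ones without irreducible
factor of degree at most `κ h` and with an ODD number of irreducible factors is
`(1/2 ± ε) V(κ h) q ^ h`, and the same holds for an EVEN number of irreducible factors. -/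
theorem result (K : Type) [Field K] [Fintype K] [CharP K 2] (ε : ℝ) (hε : 0 < ε) :
    ∃ κ₀ : ℝ, 0 < κ₀ ∧ ∀ κ : ℝ, 0 < κ → κ ≤ κ₀ → ∃ h₀ : ℕ, ∀ h : ℕ, h₀ ≤ h → ∀ A : K[X], A.Monic →
      h ≤ 2 * A.natDegree →
      |({f ∈ Rough A h (κ * h) | Odd (numFactors f)}.ncard : ℝ) -
        1 / 2 * V K (κ * h) * (Fintype.card K : ℝ) ^ h| ≤
          ε * V K (κ * h) * (Fintype.card K : ℝ) ^ h ∧
      |({f ∈ Rough A h (κ * h) | Even (numFactors f)}.ncard : ℝ) -
        1 / 2 * V K (κ * h) * (Fintype.card K : ℝ) ^ h| ≤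
          ε * V K (κ * h) * (Fintype.card K : ℝ) ^ h := by
  obtain ⟨κ₀, hκ₀, h1⟩ := Pool.Agent.H560.SQ.sifted_final K ε hε
  refine ⟨κ₀, hκ₀, fun κ hκ hκ' => ?_⟩
  obtain ⟨h₀, h2⟩ := h1 κ hκ hκ'
  refine ⟨h₀, fun h hh A hA hhA => ?_⟩
  obtain ⟨e1, e2⟩ := h2 h hh A hA hhA
  constructor
  · refine le_trans (le_of_eq ?_) e1
    congr 4
    ext f
    simp only [Rough, numFactors, Set.mem_ofPred_eq]
    tauto
  · refine le_trans (le_of_eq ?_) e2
    congr 4
    ext f
    simp only [Rough, numFactors, Set.mem_ofPred_eq]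
    tauto

end Pool.Agent.Results.MP_a8fbd7_nt.ParityAsymptoticsAtSquares
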