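import Pool.Agent.H531.SI.Fin

set_option autoImplicit false

/-!
# The counts in Oppermann's intervals in the random sieve model of Banks, Ford and Tao

For every prime `q` a residue class `a q` modulo `q` is drawn uniformly and independently. The random primes are
the integers `n ≥ 3` that are in none of the classes `a q mod q` with `q ≤ zBFT n`, where the sieving limit `zBFT n` is
the largest `m` with `∏_{q ≤ m} (1 - 1 / q)⁻¹ ≤ log n`. In contrast to Cramér's model the model knows the small primes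
(it has the singular series and the irregularities of Maier in intervals of length `(log x)^C`), and the events that
different integers are random primes are dependent, through all the primes.

The theorem: almost surely, for all `θ, η > 0`, all large `x` and ALL lengths `x ^ θ ≤ y ≤ x`, the number of random
primes in `(x, x + y]` is the integral of `1 / log t`, up to `y ^ (1 / 2 + η)`. So both asymptotic formulas of the
question hold almost surely, with error `n ^ (1 / 2 + η)`; and the exponent is sharp: for any real numbers `M n`, both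
counts differ from `M n` by at least `√(n / log n) / 60` for infinitely many `n`, almost surely.
-/

open MeasureTheory ProbabilityTheory Filter Topology

namespace Pool.Agent.Results.MP_a8fbd7_nt.RandomSieveModel

/-- `V m = ∏ (1 - 1 / q)` over the primes `q ≤ m` -/
noncomputable def V (m : ℕ) : ℝ := ∏ q ∈ (Finset.range (m + 1)).filter Nat.Prime, (1 - 1 / (q : ℝ))

/-- the classes `a q` are independent, and `a q` is uniform on `0, …, q - 1` for every prime `q` -/
structure Model {Ω : Type} [MeasurableSpace Ω] (P : Measure Ω) (a : ℕ → Ω → ℕ) : Prop where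
  measurable : ∀ q, Measurable (a q)
  independent : iIndepFun a P
  uniform : ∀ q, q.Prime → ∀ r < q, P.real {ω | a q ω = r} = 1 / q

/-- the sieving limit of Banks, Ford and Tao: the largest `m` with `∏_{q ≤ m} (1 - 1 / q)⁻¹ ≤ log n` -/
noncomputable def zBFT (n : ℕ) : ℕ := sSup {m : ℕ | (V m)⁻¹ ≤ Real.log n}

/-- the set of the random primes -/
def R {Ω : Type} (a : ℕ → Ω → ℕ) (ω : Ω) : Set ℕ :=
  {n | 3 ≤ n ∧ ∀ q ≤ zBFT n, q.Prime → n % q ≠ a q ω}

/-- the number of random primes in `[n ^ 2 - n, n ^ 2]` -/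
noncomputable def A {Ω : Type} (a : ℕ → Ω → ℕ) (ω : Ω) (n : ℕ) : ℕ :=
  (R a ω ∩ Set.Icc (n ^ 2 - n) (n ^ 2)).ncard

/-- the number of random primes in `[n ^ 2, n ^ 2 + n]` -/
noncomputable def B {Ω : Type} (a : ℕ → Ω → ℕ) (ω : Ω) (n : ℕ) : ℕ :=
  (R a ω ∩ Set.Icc (n ^ 2) (n ^ 2 + n)).ncard

theorem result :
    -- the model exists, and the sieving limit is the right one
    (∃ (Ω : Type) (_ : MeasurableSpace Ω) (P : Measure Ω) (a : ℕ → Ω → ℕ), Model P a) ∧
    Tendsto (fun n => V (zBFT n) * Real.log n) atTop (𝓝 1) ∧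
    ∀ (Ω : Type) [MeasurableSpace Ω] (P : Measure Ω) (a : ℕ → Ω → ℕ), Model P a →
      -- all windows
      (∀ᵐ ω ∂P, ∀ θ η : ℝ, 0 < θ → 0 < η → ∀ᶠ x : ℕ in atTop, ∀ y : ℕ, (x : ℝ) ^ θ ≤ y → y ≤ x →
        |((R a ω ∩ Set.Ioc x (x + y)).ncard : ℝ) - ∫ t in (x : ℝ)..(x + y : ℝ), 1 / Real.log t| ≤
          (y : ℝ) ^ (1 / 2 + η)) ∧
      -- the intervals of Oppermann
      (∀ᵐ ω ∂P, Tendsto (fun n : ℕ => (A a ω n : ℝ) / (n / (2 * Real.log n))) atTop (𝓝 1) ∧
        Tendsto (fun n : ℕ => (B a ω n : ℝ) / (n / (2 * Real.log n))) atTop (𝓝 1) ∧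
        ∀ η : ℝ, 0 < η → ∀ᶠ n : ℕ in atTop,
          |(A a ω n : ℝ) - n / (2 * Real.log n)| ≤ (n : ℝ) ^ (1 / 2 + η) ∧
          |(B a ω n : ℝ) - n / (2 * Real.log n)| ≤ (n : ℝ) ^ (1 / 2 + η)) ∧
      -- the exponent is sharp, for every main term
      ∀ M : ℕ → ℝ, ∀ᵐ ω ∂P,
        (∃ᶠ n : ℕ in atTop, √((n : ℝ) / Real.log n) / 60 ≤ |(A a ω n : ℝ) - M n|) ∧
        (∃ᶠ n : ℕ in atTop, √((n : ℝ) / Real.log n) / 60 ≤ |(B a ω n : ℝ) - M n|) := by
  refine ⟨?_, Pool.Agent.T2H32.BF.z0_lim, ?_⟩
  · obtain ⟨Ω, i, P, a, h⟩ := Pool.Agent.T2H32.BF.exists_model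
    exact ⟨Ω, i, P, a, h.measurable, h.independent, h.uniform⟩
  · intro Ω _ P a hmod
    have h : Pool.Agent.T2H32.BF.Model P a := ⟨hmod.measurable, hmod.independent, hmod.uniform⟩
    have hR : ∀ ω, R a ω = Pool.Agent.T2H32.BF.R Pool.Agent.T2H32.BF.z0 (fun q => a q ω) := fun ω => rfl
    have hup := Pool.Agent.H531.SI.upper_all h
    refine ⟨hup, ?_, fun M => ?_⟩
    · filter_upwards [hup] with ω hω
      have h1 := Pool.Agent.H531.SI.opp_upper _ hω
      refine ⟨?_, ?_, h1⟩
      · exact Pool.Agent.H531.SI.asymp_of (fun n => (A a ω n : ℝ)) fun η hη =>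
          (h1 η hη).mono fun n hn => hn.1
      · exact Pool.Agent.H531.SI.asymp_of (fun n => (B a ω n : ℝ)) fun η hη =>
          (h1 η hη).mono fun n hn => hn.2
    · have hA := Pool.Agent.H531.SI.opp_lower h (fun n => n ^ 2 - n) (fun n => le_rfl)
        (fun n => Nat.sub_le _ _) M
      have hB := Pool.Agent.H531.SI.opp_lower h (fun n => n ^ 2) (fun n => Nat.sub_le _ _)
        (fun n => le_rfl) M
      filter_upwards [hA, hB] with ω h1 h2
      refine ⟨?_, h2⟩
      refine h1.mono fun n hn => ?_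
      have h3 : n ^ 2 - n + n = n ^ 2 := Nat.sub_add_cancel (Nat.le_self_pow (by norm_num) n)
      rwa [h3] at hn

end Pool.Agent.Results.MP_a8fbd7_nt.RandomSieveModel
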